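import Pool.Agent.H61.SC.Stmts

/-! Row FRM of project SC: decomposition of the frame into cells. -/

namespace Pool.SC

open Finset

namespace Frm46

theorem mem_cols (R : Rect) (q : ℤ × ℤ) :
    q ∈ R.cols ↔ (R.x ≤ q.1 ∧ q.1 < R.x + R.w) ∧ (R.y ≤ q.2 ∧ q.2 < R.y + R.l) := by
  unfold Rect.cols
  rw [Finset.mem_product, Finset.mem_Ico, Finset.mem_Ico]

theorem sep {A B A' B' : Finset (ℤ × ℤ)} (h : Disjoint A B) (hA : A' ⊆ A) (hB : B' ⊆ B) :
    Disjoint A' B' := Finset.disjoint_of_subset_left hA (Finset.disjoint_of_subset_right hB h)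

theorem ne_cols (Q : Rect) (hw : 1 ≤ Q.w) (hl : 1 ≤ Q.l) : (Q.x, Q.y) ∈ Q.cols := by
  rw [mem_cols]
  refine ⟨⟨le_refl _, ?_⟩, ⟨le_refl _, ?_⟩⟩
  · show Q.x < Q.x + Q.w
    omega
  · show Q.y < Q.y + Q.l
    omega

/-- a good family of cells in `R` -/
def Fam (s : ℕ) (R : Rect) (Rs : Finset Rect) : Prop :=
  (∀ Q ∈ Rs, Q.cols ⊆ R.cols ∧ s ≤ Q.w ∧ Q.w < 2 * s ∧ s ≤ Q.l ∧ Q.l < 2 * s) ∧
  (∀ Q ∈ Rs, ∀ Q' ∈ Rs, Q ≠ Q' → Disjoint Q.cols Q'.cols)

theorem fam_disj {s : ℕ} (hs : 1 ≤ s) {R R' : Rect} {A B : Finset Rect} (hA : Fam s R A)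
    (hB : Fam s R' B) (h : Disjoint R.cols R'.cols) : Disjoint A B := by
  rw [Finset.disjoint_left]
  intro Q hQ hQ'
  have h1 := hA.1 Q hQ
  have h2 := hB.1 Q hQ'
  have h3 := ne_cols Q (by omega) (by omega)
  exact Finset.disjoint_left.1 h (h1.1 h3) (h2.1 h3)

theorem cross {s : ℕ} {R R' : Rect} {A B : Finset Rect} (hA : Fam s R A)
    (hB : Fam s R' B) (h : Disjoint R.cols R'.cols) :
    ∀ Q ∈ A, ∀ Q' ∈ B, Disjoint Q.cols Q'.cols :=
  fun Q hQ Q' hQ' => sep h (hA.1 Q hQ).1 (hB.1 Q' hQ').1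

end Frm46

open Frm46 in
theorem frm_thm (hC : S_CEL) : S_FRM := by
  intro w l s i u j v hs hw hl hi1 hi2 hu1 hu2 hj1 hj2 hv1 hv2
  obtain ⟨B, hB1, hB2, hB3, hB4⟩ := hC ⟨0, 0, w, j⟩ s hs (show s ≤ w by omega) (show s ≤ j by omega)
  obtain ⟨T, hT1, hT2, hT3, hT4⟩ := hC ⟨0, (l : ℤ) - v, w, v⟩ s hs (show s ≤ w by omega)
    (show s ≤ v by omega)
  obtain ⟨L, hL1, hL2, hL3, hL4⟩ := hC ⟨0, j, i, l - j - v⟩ s hs (show s ≤ i by omega)
    (show s ≤ l - j - v by omega)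
  obtain ⟨R, hR1, hR2, hR3, hR4⟩ := hC ⟨(w : ℤ) - u, j, u, l - j - v⟩ s hs (show s ≤ u by omega)
    (show s ≤ l - j - v by omega)
  have fB : Fam s ⟨0, 0, w, j⟩ B := ⟨hB1, hB2⟩
  have fT : Fam s ⟨0, (l : ℤ) - v, w, v⟩ T := ⟨hT1, hT2⟩
  have fL : Fam s ⟨0, j, i, l - j - v⟩ L := ⟨hL1, hL2⟩
  have fR : Fam s ⟨(w : ℤ) - u, j, u, l - j - v⟩ R := ⟨hR1, hR2⟩
  have hc : ((l - j - v : ℕ) : ℤ) = (l : ℤ) - j - v := by omega
  have hcw : ((w - i - u : ℕ) : ℤ) = (w : ℤ) - i - u := by omega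
  have dBT : Disjoint (⟨0, 0, w, j⟩ : Rect).cols (⟨0, (l : ℤ) - v, w, v⟩ : Rect).cols := by
    rw [Finset.disjoint_left]; intro q h1 h2
    rw [mem_cols] at h1 h2; simp only at h1 h2; omega
  have dBL : Disjoint (⟨0, 0, w, j⟩ : Rect).cols (⟨0, j, i, l - j - v⟩ : Rect).cols := by
    rw [Finset.disjoint_left]; intro q h1 h2
    rw [mem_cols] at h1 h2; simp only at h1 h2; omega
  have dBR : Disjoint (⟨0, 0, w, j⟩ : Rect).cols (⟨(w : ℤ) - u, j, u, l - j - v⟩ : Rect).cols := by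
    rw [Finset.disjoint_left]; intro q h1 h2
    rw [mem_cols] at h1 h2; simp only at h1 h2; omega
  have dTL : Disjoint (⟨0, (l : ℤ) - v, w, v⟩ : Rect).cols (⟨0, j, i, l - j - v⟩ : Rect).cols := by
    rw [Finset.disjoint_left]; intro q h1 h2
    rw [mem_cols] at h1 h2; simp only [hc] at h1 h2; omega
  have dTR : Disjoint (⟨0, (l : ℤ) - v, w, v⟩ : Rect).cols
      (⟨(w : ℤ) - u, j, u, l - j - v⟩ : Rect).cols := by
    rw [Finset.disjoint_left]; intro q h1 h2
    rw [mem_cols] at h1 h2; simp only [hc] at h1 h2; omega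
  have dLR : Disjoint (⟨0, j, i, l - j - v⟩ : Rect).cols
      (⟨(w : ℤ) - u, j, u, l - j - v⟩ : Rect).cols := by
    rw [Finset.disjoint_left]; intro q h1 h2
    rw [mem_cols] at h1 h2; simp only [hc] at h1 h2; omega
  have iB : Disjoint (⟨0, 0, w, j⟩ : Rect).cols (⟨i, j, w - i - u, l - j - v⟩ : Rect).cols := by
    rw [Finset.disjoint_left]; intro q h1 h2
    rw [mem_cols] at h1 h2; simp only at h1 h2; omega
  have iT : Disjoint (⟨0, (l : ℤ) - v, w, v⟩ : Rect).cols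
      (⟨i, j, w - i - u, l - j - v⟩ : Rect).cols := by
    rw [Finset.disjoint_left]; intro q h1 h2
    rw [mem_cols] at h1 h2; simp only [hc, hcw] at h1 h2; omega
  have iL : Disjoint (⟨0, j, i, l - j - v⟩ : Rect).cols
      (⟨i, j, w - i - u, l - j - v⟩ : Rect).cols := by
    rw [Finset.disjoint_left]; intro q h1 h2
    rw [mem_cols] at h1 h2; simp only at h1 h2; omega
  have iR : Disjoint (⟨(w : ℤ) - u, j, u, l - j - v⟩ : Rect).cols
      (⟨i, j, w - i - u, l - j - v⟩ : Rect).cols := by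
    rw [Finset.disjoint_left]; intro q h1 h2
    rw [mem_cols] at h1 h2; simp only [hc, hcw] at h1 h2; omega
  have sB : (⟨0, 0, w, j⟩ : Rect).cols ⊆ (sq w l).cols := by
    intro q h1; rw [mem_cols] at h1 ⊢; simp only [sq] at h1 ⊢; omega
  have sT : (⟨0, (l : ℤ) - v, w, v⟩ : Rect).cols ⊆ (sq w l).cols := by
    intro q h1; rw [mem_cols] at h1 ⊢; simp only [sq] at h1 ⊢; omega
  have sL : (⟨0, j, i, l - j - v⟩ : Rect).cols ⊆ (sq w l).cols := by
    intro q h1; rw [mem_cols] at h1 ⊢; simp only [sq, hc] at h1 ⊢; omega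
  have sR : (⟨(w : ℤ) - u, j, u, l - j - v⟩ : Rect).cols ⊆ (sq w l).cols := by
    intro q h1; rw [mem_cols] at h1 ⊢; simp only [sq, hc] at h1 ⊢; omega
  have q1 := fam_disj hs fB fT dBT
  have q2 := fam_disj hs fB fL dBL
  have q3 := fam_disj hs fB fR dBR
  have q4 := fam_disj hs fT fL dTL
  have q5 := fam_disj hs fT fR dTR
  have q6 := fam_disj hs fL fR dLR
  have u1 : Disjoint (B ∪ T) (L ∪ R) := by
    rw [Finset.disjoint_union_left, Finset.disjoint_union_right, Finset.disjoint_union_right]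
    exact ⟨⟨q2, q3⟩, ⟨q4, q5⟩⟩
  refine ⟨(B ∪ T) ∪ (L ∪ R), ?_, ?_, ?_, ?_⟩
  · intro Q hQ
    rw [Finset.mem_union, Finset.mem_union, Finset.mem_union] at hQ
    rcases hQ with (h | h) | (h | h)
    · have := fB.1 Q h
      exact ⟨this.1.trans sB, this.2.1, this.2.2.1, this.2.2.2.1, this.2.2.2.2,
        sep iB this.1 (Finset.Subset.refl _)⟩
    · have := fT.1 Q h
      exact ⟨this.1.trans sT, this.2.1, this.2.2.1, this.2.2.2.1, this.2.2.2.2,
        sep iT this.1 (Finset.Subset.refl _)⟩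
    · have := fL.1 Q h
      exact ⟨this.1.trans sL, this.2.1, this.2.2.1, this.2.2.2.1, this.2.2.2.2,
        sep iL this.1 (Finset.Subset.refl _)⟩
    · have := fR.1 Q h
      exact ⟨this.1.trans sR, this.2.1, this.2.2.1, this.2.2.2.1, this.2.2.2.2,
        sep iR this.1 (Finset.Subset.refl _)⟩
  · intro Q hQ Q' hQ' hne
    rw [Finset.mem_union, Finset.mem_union, Finset.mem_union] at hQ hQ'
    rcases hQ with (h | h) | (h | h) <;> rcases hQ' with (h' | h') | (h' | h')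
    · exact fB.2 Q h Q' h' hne
    · exact cross fB fT dBT Q h Q' h'
    · exact cross fB fL dBL Q h Q' h'
    · exact cross fB fR dBR Q h Q' h'
    · exact (cross fB fT dBT Q' h' Q h).symm
    · exact fT.2 Q h Q' h' hne
    · exact cross fT fL dTL Q h Q' h'
    · exact cross fT fR dTR Q h Q' h'
    · exact (cross fB fL dBL Q' h' Q h).symm
    · exact (cross fT fL dTL Q' h' Q h).symm
    · exact fL.2 Q h Q' h' hne
    · exact cross fL fR dLR Q h Q' h'
    · exact (cross fB fR dBR Q' h' Q h).symm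
    · exact (cross fT fR dTR Q' h' Q h).symm
    · exact (cross fL fR dLR Q' h' Q h).symm
    · exact fR.2 Q h Q' h' hne
  · rw [Finset.sum_union u1, Finset.sum_union q1, Finset.sum_union q6, hB3, hT3, hL3, hR3]
    simp only
    obtain ⟨x, hx⟩ : ∃ x, w = i + u + x := ⟨w - i - u, by omega⟩
    obtain ⟨y, hy⟩ : ∃ y, l = j + v + y := ⟨l - j - v, by omega⟩
    have e1 : w - i - u = x := by omega
    have e2 : l - j - v = y := by omega
    rw [e1, e2, hx, hy]
    ring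
  · have c1 : ((B ∪ T) ∪ (L ∪ R)).card ≤ B.card + T.card + (L.card + R.card) :=
      (Finset.card_union_le _ _).trans (Nat.add_le_add (Finset.card_union_le _ _)
        (Finset.card_union_le _ _))
    have key : ∀ c W J : ℕ, c * s ^ 2 ≤ W * J → J ≤ 2 * s → c * s ≤ 2 * W := by
      intro c W J h1 h2
      have h3 : (c * s) * s ≤ (2 * W) * s := by
        calc (c * s) * s = c * s ^ 2 := by ring
          _ ≤ W * J := h1
          _ ≤ W * (2 * s) := Nat.mul_le_mul_left _ h2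
          _ = (2 * W) * s := by ring
      exact Nat.le_of_mul_le_mul_right h3 (by omega)
    have b1 := key _ _ _ hB4 (show j ≤ 2 * s by omega)
    have b2 := key _ _ _ hT4 (show v ≤ 2 * s by omega)
    have b3 : L.card * s ≤ 2 * (l - j - v) := key _ _ _ (by
      have := hL4
      simp only at this
      rw [Nat.mul_comm]
      rw [Nat.mul_comm] at this
      calc s ^ 2 * L.card = s ^ 2 * L.card := rfl
        _ ≤ i * (l - j - v) := this
        _ = (l - j - v) * i := Nat.mul_comm _ _) (show i ≤ 2 * s by omega)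
    have b4 : R.card * s ≤ 2 * (l - j - v) := key _ _ _ (by
      have := hR4
      simp only at this
      calc R.card * s ^ 2 ≤ u * (l - j - v) := this
        _ = (l - j - v) * u := Nat.mul_comm _ _) (show u ≤ 2 * s by omega)
    simp only at b1 b2
    calc ((B ∪ T) ∪ (L ∪ R)).card * s ≤ (B.card + T.card + (L.card + R.card)) * s :=
          Nat.mul_le_mul_right _ c1
      _ = B.card * s + T.card * s + (L.card * s + R.card * s) := by ring
      _ ≤ 4 * (w + l) := by omega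

end Pool.SC
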